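import Pool.Agent.Gab7b_h87.Name

/-!
# The excluded configurations
-/

set_option autoImplicit false

namespace Pool.Agent.Gab7b_h87

open Pool.Agent.Gabow87

section

variable {α : Type*} [DecidableEq α] {P : Finset α → Prop} {B B' : Finset α}

theorem erase_eq0 {X : Finset α} {x : α} (hx : x ∈ X) (h : X.erase x = ∅) : X = {x} := by
  rw [← Finset.insert_erase hx, h]
  rfl

theorem erase_eq1 {X : Finset α} {x a : α} (hx : x ∈ X) (h : X.erase x = {a}) :
    X = {a, x} ∧ a ≠ x := by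
  constructor
  · rw [← Finset.insert_erase hx, h, Finset.pair_comm]
  · rintro rfl
    have : a ∈ X.erase a := by rw [h]; simp
    exact absurd this (Finset.notMem_erase _ _)

theorem erase_eq2 {X : Finset α} {x a b : α} (hx : x ∈ X) (h : X.erase x = {a, b}) :
    X = {a, b, x} ∧ a ≠ x ∧ b ≠ x := by
  refine ⟨?_, ?_, ?_⟩
  · rw [← Finset.insert_erase hx, h]
    ext t
    simp only [Finset.mem_insert, Finset.mem_singleton]
    tauto
  · rintro rfl
    have : a ∈ X.erase a := by rw [h]; simp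
    exact absurd this (Finset.notMem_erase _ _)
  · rintro rfl
    have : b ∈ X.erase b := by rw [h]; simp
    exact absurd this (Finset.notMem_erase _ _)

theorem gch1 {X V : Finset α} (h : GCh P B B' 1 X V) :
    ∃ x y, X = {x} ∧ V = {y} ∧ Good P B B' {x} {y} := by
  obtain ⟨hg, x, hx, v, hv, h1, h2⟩ := h
  have e1 := erase_eq0 hx h1
  have e2 := erase_eq0 hv h2
  subst e1
  subst e2
  exact ⟨x, v, rfl, rfl, hg⟩

theorem gch2 {X V : Finset α} (h : GCh P B B' 2 X V) :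
    ∃ x₀ x₁ y₀ y₁, x₀ ≠ x₁ ∧ y₀ ≠ y₁ ∧ X = {x₀, x₁} ∧ V = {y₀, y₁} ∧
      Good P B B' {x₀} {y₀} ∧ Good P B B' {x₀, x₁} {y₀, y₁} := by
  obtain ⟨hg, x, hx, v, hv, h1⟩ := h
  obtain ⟨a, b, ha, hb, hab⟩ := gch1 h1
  obtain ⟨e1, n1⟩ := erase_eq1 hx ha
  obtain ⟨e2, n2⟩ := erase_eq1 hv hb
  subst e1
  subst e2
  exact ⟨a, x, b, v, n1, n2, rfl, rfl, hab, hg⟩

/-- the case of a configuration in which the common element is the term `k` of the first chain -/
theorem fin (hP : SymExch P) (hB : P B) (hB' : P B') (hd : Disjoint B B') (c7 : B.card = 7)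
    (c7' : B'.card = 7) (hs : List (ℕ × ℕ)) (cs : List ℕ) (hno : NoD hs P B B')
    (hcs : ∀ j ∈ cs, ¬ Cfg j P B B') {x0 x1 x2 x3 x5 x6 y0 y1 y2 y5 y6 : α}
    (hX1 : ({x0, x1, x2} : Finset α) ⊆ B) (hX2 : ({x3, x5, x6} : Finset α) ⊆ B)
    (hV1 : ({y0, y1, y2} : Finset α) ⊆ B') (hV2 : ({y5, y6} : Finset α) ⊆ B')
    (cX1 : ({x0, x1, x2} : Finset α).card = 3) (cX2 : ({x3, x5, x6} : Finset α).card = 3)
    (cV1 : ({y0, y1, y2} : Finset α).card = 3) (cV2 : ({y5, y6} : Finset α).card = 2)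
    (dX : Disjoint ({x0, x1, x2} : Finset α) {x3, x5, x6})
    (dV : Disjoint ({y0, y1, y2} : Finset α) {y5, y6})
    (g1 : Good P B B' {x0} {y0}) (g2 : Good P B B' {x0, x1} {y0, y1})
    (g3 : Good P B B' {x0, x1, x2} {y0, y1, y2})
    (g5 : Good P B B' {x5, x6} {y5, y6}) (g6 : Good P B B' {x6} {y6})
    (k : ℕ) (hk : k < 3) (gx : Good P B B' {x3, x5, x6} {[y0, y1, y2].getD k y0, y5, y6})
    (bad : ∀ c : Cx α, c.toPar = ⟨7, 127, 55, hs, lsk k, [], cs⟩ → False) : False := by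
  -- the remaining element of the first basis
  obtain ⟨x4, hx4⟩ : ∃ x4, B \ ({x0, x1, x2} ∪ {x3, x5, x6}) = {x4} := by
    rw [← Finset.card_eq_one, Finset.card_sdiff_of_subset (Finset.union_subset hX1 hX2),
      Finset.card_union_of_disjoint dX]
    omega
  have eB : B = {x0, x1, x2, x3, x4, x5, x6} := by
    have h1 := Finset.sdiff_union_of_subset (Finset.union_subset hX1 hX2)
    rw [hx4] at h1
    rw [← h1]
    ext t
    simp only [Finset.mem_union, Finset.mem_insert, Finset.mem_singleton]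
    tauto
  have hx3B : x3 ∈ B := hX2 (by simp)
  have hx3X1 : x3 ∉ ({x0, x1, x2} : Finset α) := fun h =>
    Finset.disjoint_left.mp dX h (by simp)
  have hBB : ∀ t ∈ B, t ∉ B' := fun t h h' => Finset.disjoint_left.mp hd h h'
  -- the element exchanged for `x3`
  obtain ⟨y3, hy3, hy3', -, h4⟩ := hP _ _ g5.2 g3.1 x3 (by
      rw [Finset.mem_union, Finset.mem_sdiff]
      exact Or.inl ⟨hx3B, hx3X1⟩) (by
      rw [Finset.mem_union, Finset.mem_sdiff]
      rintro (h | h)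
      · exact hBB _ hx3B h.1
      · have : ({x3, x5, x6} : Finset α) = {x5, x6} := by
          ext t
          simp only [Finset.mem_insert, Finset.mem_singleton] at h ⊢
          constructor
          · rintro (rfl | h' | h')
            · exact h
            · exact Or.inl h'
            · exact Or.inr h'
          · tauto
        rw [this] at cX2
        have := Finset.card_le_two (a := x5) (b := x6)
        omega)
  have hy3B : y3 ∈ B' ∧ y3 ∉ ({y5, y6} : Finset α) := by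
    rw [Finset.mem_union, Finset.mem_sdiff] at hy3
    rcases hy3 with h | h
    · exact h
    · exfalso
      apply hy3'
      rw [Finset.mem_union, Finset.mem_sdiff]
      left
      have h5 : y3 ∈ ({x3, x5, x6} : Finset α) := by
        simp only [Finset.mem_insert, Finset.mem_singleton] at h ⊢
        tauto
      exact ⟨hX2 h5, fun h' => Finset.disjoint_left.mp dX h' h5⟩
  have hy3V : y3 ∉ ({y0, y1, y2} : Finset α) := fun h => hy3' (Finset.mem_union_right _ h)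
  have g4 : P ((B \ {x0, x1, x2, x3}) ∪ {y0, y1, y2, y3}) := by
    convert h4 using 1
    ext t
    simp only [Finset.mem_union, Finset.mem_sdiff, Finset.mem_insert, Finset.mem_singleton,
      Finset.mem_erase]
    have hx3V : t = x3 → ¬ (t = y0 ∨ t = y1 ∨ t = y2) := by
      rintro rfl h
      exact hBB _ hx3B (hV1 (by simpa using h))
    have hy : t = y3 → t ≠ x3 := by
      rintro rfl rfl
      exact hBB _ hx3B hy3B.1
    tauto
  -- the remaining element of the second basis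
  have dV3 : Disjoint (({y0, y1, y2} : Finset α) ∪ {y5, y6}) {y3} := by
    rw [Finset.disjoint_singleton_right, Finset.mem_union]
    rintro (h | h)
    · exact hy3V h
    · exact hy3B.2 h
  have sV3 : (({y0, y1, y2} : Finset α) ∪ {y5, y6}) ∪ {y3} ⊆ B' :=
    Finset.union_subset (Finset.union_subset hV1 hV2) (Finset.singleton_subset_iff.mpr hy3B.1)
  obtain ⟨y4, hy4⟩ : ∃ y4, B' \ ((({y0, y1, y2} : Finset α) ∪ {y5, y6}) ∪ {y3}) = {y4} := by
    rw [← Finset.card_eq_one, Finset.card_sdiff_of_subset sV3,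
      Finset.card_union_of_disjoint dV3, Finset.card_union_of_disjoint dV,
      Finset.card_singleton]
    omega
  have eB' : B' = {y0, y1, y2, y3, y4, y5, y6} := by
    have h1 := Finset.sdiff_union_of_subset sV3
    rw [hy4] at h1
    rw [← h1]
    ext t
    simp only [Finset.mem_union, Finset.mem_insert, Finset.mem_singleton]
    tauto
  refine no_node hP hB hB' hd hs cs hno hcs x0 x1 x2 x3 x4 x5 x6 y0 y1 y2 y3 y4 y5 y6 eB eB' ?_
    g1 g2 g3 g4 g5 g6 k hk gx bad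
  refine list_nodup_of_card _ ?_
  have hl : [x0, x1, x2, x3, x4, x5, x6, y0, y1, y2, y3, y4, y5, y6].toFinset = B ∪ B' := by
    rw [eB, eB']
    ext t
    simp only [List.mem_toFinset, List.mem_cons, List.not_mem_nil, Finset.mem_union,
      Finset.mem_insert, Finset.mem_singleton, or_false, or_assoc]
  rw [hl, Finset.card_union_of_disjoint hd, c7, c7']
  rfl

/-- a configuration whose common element is in the second basis -/
theorem cfgT (hP : SymExch P) (hB : P B) (hB' : P B') (hd : Disjoint B B') (c7 : B.card = 7)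
    (c7' : B'.card = 7) (hs : List (ℕ × ℕ)) (cs : List ℕ) (hno : NoD hs P B B')
    (hcs : ∀ j ∈ cs, ¬ Cfg j P B B') (k : ℕ) (hk : k < 3)
    (h2 : k < 2 → ¬ Cfg 2 P B B') (h1 : k < 1 → ¬ Cfg 1 P B B')
    (bad : ∀ c : Cx α, c.toPar = ⟨7, 127, 55, hs, lsk k, [], cs⟩ → False)
    {X₁ V₁ X₂ V₂ : Finset α} {e : α} (hX1 : X₁ ⊆ B) (hV1 : V₁ ⊆ B') (hX2 : X₂ ⊆ B)
    (hV2 : V₂ ⊆ B') (cc1 : X₁.card = 3) (cc2 : X₂.card = 3) (hi : (X₁ ∪ V₁) ∩ (X₂ ∪ V₂) = {e})
    (he : e ∈ B') (hl : LastE P B B' X₂ V₂ e)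
    (hc : (k = 2 ∧ LastE P B B' X₁ V₁ e) ∨ (k = 1 ∧ PenE P B B' X₁ V₁ e) ∨
      (k = 0 ∧ ∃ m, GCh P B B' m X₁ V₁)) : False := by
  have hBB : ∀ t ∈ B, t ∉ B' := fun t h h' => Finset.disjoint_left.mp hd h h'
  have heB : e ∉ B := fun h => hBB _ h he
  have dX : Disjoint X₁ X₂ := by
    rw [Finset.disjoint_left]
    intro t h h'
    have : t ∈ (X₁ ∪ V₁) ∩ (X₂ ∪ V₂) :=
      Finset.mem_inter.mpr ⟨Finset.mem_union_left _ h, Finset.mem_union_left _ h'⟩
    rw [hi, Finset.mem_singleton] at this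
    exact heB (this ▸ hX1 h)
  have dV : ∀ t ∈ V₁, t ∈ V₂ → t = e := by
    intro t h h'
    have : t ∈ (X₁ ∪ V₁) ∩ (X₂ ∪ V₂) :=
      Finset.mem_inter.mpr ⟨Finset.mem_union_right _ h, Finset.mem_union_right _ h'⟩
    rwa [hi, Finset.mem_singleton] at this
  have heV1 : e ∈ V₁ := by
    have : e ∈ (X₁ ∪ V₁) ∩ (X₂ ∪ V₂) := by rw [hi]; simp
    rcases Finset.mem_union.mp (Finset.mem_inter.mp this).1 with h | h
    · exact absurd (hX1 h) heB
    · exact h
  -- the second chain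
  obtain ⟨gx, x3, hx3, v, hv, hev, m, hm⟩ := hl
  have hev : e = v := by
    rcases hev with h | h
    · exact absurd (hX2 hx3) (h ▸ heB)
    · exact h
  subst hev
  have hm2 := (GCh.card _ _ _ hm).1
  rw [Finset.card_erase_of_mem hx3, cc2] at hm2
  obtain rfl : m = 2 := by omega
  obtain ⟨x6, x5, y6, y5, n1, n2, eX2, eV2, g6, g5⟩ := gch2 hm
  rw [Finset.pair_comm] at eX2 eV2
  rw [Finset.pair_comm x6, Finset.pair_comm y6] at g5
  obtain ⟨fX2, n3, n4⟩ := erase_eq2 hx3 eX2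
  obtain ⟨fV2, n5, n6⟩ := erase_eq2 hv eV2
  have fX2' : X₂ = {x3, x5, x6} := by
    rw [fX2]
    ext t
    simp only [Finset.mem_insert, Finset.mem_singleton]
    tauto
  have fV2' : V₂ = {e, y5, y6} := by
    rw [fV2]
    ext t
    simp only [Finset.mem_insert, Finset.mem_singleton]
    tauto
  have sV2 : ({y5, y6} : Finset α) ⊆ V₂ := by
    rw [← eV2]
    exact Finset.erase_subset _ _
  have heV2 : e ∉ ({y5, y6} : Finset α) := by
    rw [← eV2]
    exact Finset.notMem_erase _ _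
  have dV' : Disjoint V₁ ({y5, y6} : Finset α) := by
    rw [Finset.disjoint_left]
    intro t h h'
    have := dV t h (sV2 h')
    exact heV2 (this ▸ h')
  have cV2 : ({y5, y6} : Finset α).card = 2 := by
    rw [← eV2, ← (GCh.card _ _ _ hm).2]
  -- the first chain
  obtain ⟨x0, x1, x2, y0, y1, y2, fX1, fV1, cV1, g1, g2, g3, hek⟩ : ∃ x0 x1 x2 y0 y1 y2,
      X₁ = {x0, x1, x2} ∧ V₁ = {y0, y1, y2} ∧ V₁.card = 3 ∧ Good P B B' {x0} {y0} ∧
      Good P B B' {x0, x1} {y0, y1} ∧ Good P B B' {x0, x1, x2} {y0, y1, y2} ∧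
      e = [y0, y1, y2].getD k y0 := by
    rcases hc with ⟨rfl, gg, x2, hx2, y2, hy2, hey, m, hm1⟩ |
      ⟨rfl, gg, x2, hx2, y2, hy2, gg2, x1, hx1, y1, hy1, hey, m, hm1⟩ | ⟨rfl, m, hm1⟩
    · have hey : e = y2 := by
        rcases hey with h | h
        · exact absurd (hX1 hx2) (h ▸ heB)
        · exact h
      have hm2 := (GCh.card _ _ _ hm1)
      rw [Finset.card_erase_of_mem hx2, cc1, Finset.card_erase_of_mem hy2] at hm2
      obtain rfl : m = 2 := by omega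
      obtain ⟨x0, x1, y0, y1, -, -, eX1, eV1, q1, q2⟩ := gch2 hm1
      obtain ⟨fX1, -, -⟩ := erase_eq2 hx2 eX1
      obtain ⟨fV1, -, -⟩ := erase_eq2 hy2 eV1
      have c3 : V₁.card = 3 := by
        have := Finset.card_pos.mpr ⟨y2, hy2⟩
        omega
      exact ⟨x0, x1, x2, y0, y1, y2, fX1, fV1, c3, q1, q2, by rw [← fX1, ← fV1]; exact gg, hey⟩
    · have hey : e = y1 := by
        rcases hey with h | h
        · exact absurd (hX1 (Finset.mem_of_mem_erase hx1)) (h ▸ heB)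
        · exact h
      have hm2 := (GCh.card _ _ _ hm1)
      rw [Finset.card_erase_of_mem hx1, Finset.card_erase_of_mem hy1,
        Finset.card_erase_of_mem hx2, Finset.card_erase_of_mem hy2, cc1] at hm2
      obtain rfl : m = 1 := by omega
      obtain ⟨x0, y0, eX1, eV1, q1⟩ := gch1 hm1
      obtain ⟨eX1, -⟩ := erase_eq1 hx1 eX1
      obtain ⟨eV1, -⟩ := erase_eq1 hy1 eV1
      obtain ⟨fX1, -, -⟩ := erase_eq2 hx2 eX1
      obtain ⟨fV1, -, -⟩ := erase_eq2 hy2 eV1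
      have c3 : V₁.card = 3 := by
        have h3 := Finset.card_pos.mpr ⟨y2, hy2⟩
        have h4 := Finset.card_pos.mpr ⟨y1, hy1⟩
        rw [Finset.card_erase_of_mem hy2] at h4
        omega
      exact ⟨x0, x1, x2, y0, y1, y2, fX1, fV1, c3, q1, by rw [← eX1, ← eV1]; exact gg2,
        by rw [← fX1, ← fV1]; exact gg, hey⟩
    · have hm2 := (GCh.card _ _ _ hm1)
      rw [cc1] at hm2
      obtain rfl : m = 3 := hm2.1.symm
      have hm0 := hm1
      obtain ⟨gg, x2, hx2, y2, hy2, hm3⟩ := hm1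
      have hm4 := hm3
      obtain ⟨gg2, x1, hx1, y1, hy1, hm5⟩ := hm3
      obtain ⟨x0, y0, eX1, eV1, q1⟩ := gch1 hm5
      obtain ⟨eX1, -⟩ := erase_eq1 hx1 eX1
      obtain ⟨eV1, -⟩ := erase_eq1 hy1 eV1
      obtain ⟨fX1, -, -⟩ := erase_eq2 hx2 eX1
      obtain ⟨fV1, -, -⟩ := erase_eq2 hy2 eV1
      refine ⟨x0, x1, x2, y0, y1, y2, fX1, fV1, hm2.2, q1, by rw [← eX1, ← eV1]; exact gg2,
        by rw [← fX1, ← fV1]; exact gg, ?_⟩
      change e = y0
      have h5 := heV1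
      rw [fV1] at h5
      simp only [Finset.mem_insert, Finset.mem_singleton] at h5
      have hl2 : LastE P B B' X₂ V₂ e := ⟨gx, x3, hx3, e, hv, Or.inr rfl, 2, hm⟩
      rcases h5 with h5 | h5 | h5
      · exact h5
      · exfalso
        refine h1 (by norm_num) ⟨X₁, hX1, V₁, hV1, X₂, hX2, V₂, hV2, e, cc1, cc2, hi, hl2,
          Or.inr (Or.inl ⟨rfl, gg, x2, hx2, y2, hy2, gg2, x1, hx1, y1, hy1, Or.inr h5, 1, hm5⟩)⟩
      · exfalso
        exact h2 (by norm_num) ⟨X₁, hX1, V₁, hV1, X₂, hX2, V₂, hV2, e, cc1, cc2, hi, hl2,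
          Or.inl ⟨rfl, gg, x2, hx2, y2, hy2, Or.inr h5, 2, hm4⟩⟩
  rw [fX2'] at hX2 cc2 dX gx
  rw [fV2'] at gx
  rw [fX1] at hX1 cc1 dX
  rw [fV1] at hV1 cV1 dV'
  rw [hek] at gx
  exact fin hP hB hB' hd c7 c7' hs cs hno hcs hX1 hX2 hV1 (fun t ht => hV2 (sV2 ht)) cc1 cc2 cV1
    cV2 dX dV' g1 g2 g3 g5 g6 k hk gx bad

/-- the configuration number `k` does not exist -/
theorem no_Cfg (hP : SymExch P) (hB : P B) (hB' : P B') (hd : Disjoint B B') (c7 : B.card = 7)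
    (c7' : B'.card = 7) (hs : List (ℕ × ℕ)) (cs : List ℕ) (hno : NoD hs P B B')
    (hcs : ∀ j ∈ cs, ¬ Cfg j P B B') (k : ℕ) (hk : k < 3)
    (h2 : k < 2 → ¬ Cfg 2 P B B') (h1 : k < 1 → ¬ Cfg 1 P B B')
    (bad : ∀ c : Cx α, c.toPar = ⟨7, 127, 55, hs, lsk k, [], cs⟩ → False) :
    ¬ Cfg k P B B' := by
  rintro ⟨X₁, hX1, V₁, hV1, X₂, hX2, V₂, hV2, e, cc1, cc2, hi, hl, hc⟩
  have he : e ∈ X₂ ∪ V₂ := by
    have : e ∈ (X₁ ∪ V₁) ∩ (X₂ ∪ V₂) := by rw [hi]; simp
    exact (Finset.mem_inter.mp this).2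
  rcases Finset.mem_union.mp he with he | he
  · refine cfgT hP hB' hB hd.symm c7' c7 hs cs hno.symm (fun j hj h => hcs j hj h.symm) k hk
      (fun h h' => h2 h h'.symm) (fun h h' => h1 h h'.symm) bad hV1 hX1 hV2 hX2 ?_ ?_ ?_
      (hX2 he) hl.symm ?_
    · rcases hc with ⟨-, hk⟩ | ⟨-, hk⟩ | ⟨-, m, hk⟩
      · rw [← hk.card, cc1]
      · rw [← hk.card, cc1]
      · rw [(GCh.card _ _ _ hk).2, ← (GCh.card _ _ _ hk).1, cc1]
    · rw [← hl.card, cc2]
    · rw [Finset.union_comm V₁, Finset.union_comm V₂, hi]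
    · rcases hc with ⟨h3, hk⟩ | ⟨h3, hk⟩ | ⟨h3, m, hk⟩
      · exact Or.inl ⟨h3, hk.symm⟩
      · exact Or.inr (Or.inl ⟨h3, hk.symm⟩)
      · exact Or.inr (Or.inr ⟨h3, m, GCh.symm _ _ _ hk⟩)
  · exact cfgT hP hB hB' hd c7 c7' hs cs hno hcs k hk h2 h1 bad hX1 hV1 hX2 hV2 cc1 cc2 hi
      (hV2 he) hl hc

end

end Pool.Agent.Gab7b_h87
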