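import Pool.Agent.Gab7b_h87.Case

/-!
# Rank seven
-/

set_option autoImplicit false

namespace Pool.Agent.Gab7b_h87

open Pool.Agent.Gabow87
open Pool.Agent.Gab6_h87 (bp_lt bp_ge nm nm_left nm_right nm_inj image_nm_left
  image_nm_right firstL_full firstR_full start)
open Pool.Agent.Gab7_h87 (totV totX of_two refine_near)

/-- the problem whose solution is excluded by a certificate -/
theorem no_cx {α : Type*} {M : Matroid α} {r : ℕ} (hr : 0 < r) {b b' : Fin r → α}
    (hb : Function.Injective b) (hb' : Function.Injective b')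
    (hB : M.IsBase (Set.range b)) (hB' : M.IsBase (Set.range b')) (m0 m1 : ℕ)
    (hs : List (ℕ × ℕ)) (cs : List ℕ) (σ σ' : Equiv.Perm (Fin r))
    (h0 : ∀ i < r, m0.testBit i = true → ∀ j : Fin (r + r), j.val = i + 1 →
      M.IsBase (block (b ∘ σ) (b' ∘ σ') j))
    (h1 : ∀ i < r, m1.testBit i = true → ∀ j : Fin (r + r), j.val = r + i + 1 →
      M.IsBase (block (b ∘ σ) (b' ∘ σ') j))
    (hno : NoD hs (BP M (Sum.elim b b')) (B₀ r) (B₁ r))
    (hcs : ∀ j ∈ cs, ¬ Cfg j (BP M (Sum.elim b b')) (B₀ r) (B₁ r))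
    (bad : ∀ c : Cx (Idx r), c.toPar = ⟨r, m0, m1, hs, [], [], cs⟩ → False) : False := by
  have hA := base_B₀ (b' := b') hb hB
  have hA' := base_B₁ (b := b) hb' hB'
  have hP := symExch_BP M (Sum.elim b b')
  have e0 : (Finset.range r).image (nm hr σ σ') = B₀ r := by
    rw [image_nm_left hr σ σ' le_rfl, firstL_full]
  have e1 : ((Finset.range r).image fun i => nm hr σ σ' (r + i)) = B₁ r := by
    rw [image_nm_right hr σ σ' le_rfl, firstR_full]
  refine bad ⟨⟨r, m0, m1, hs, [], [], cs⟩, nm hr σ σ', BP M (Sum.elim b b'), nm_inj hr σ σ',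
    ?_, ?_, ?_, ?_, ?_, ?_, ?_, ?_, ?_, ?_, ?_⟩ rfl
  · intro S T hS hT x hx hxT
    obtain ⟨e, he, heS, h2, h1⟩ := hP T S hT hS x hx hxT
    exact ⟨e, he, heS, h1, h2⟩
  · rw [e0]; exact hA
  · rw [e1]; exact hA'
  · intro i hi hm
    change i < r at hi
    change m0.testBit i = true at hm
    rw [e0, image_nm_left hr σ σ' (show i + 1 ≤ r by omega),
      image_nm_right hr σ σ' (show i + 1 ≤ r by omega)]
    rcases Nat.lt_or_ge (i + 1) r with h | h
    · exact bp_lt hb hB σ σ' ⟨i + 1, by omega⟩ h (h0 i hi hm _ rfl)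
    · have : i + 1 = r := by omega
      rw [this, firstL_full, firstR_full, Finset.sdiff_self, Finset.empty_union]
      exact hA'
  · intro i hi hm
    change i < r at hi
    change m1.testBit i = true at hm
    rw [e1, image_nm_left hr σ σ' (show i + 1 ≤ r by omega),
      image_nm_right hr σ σ' (show i + 1 ≤ r by omega)]
    rcases Nat.lt_or_ge (i + 1) r with h | h
    · have := bp_ge hb hB σ σ' ⟨r + i + 1, by omega⟩ (by change r ≤ r + i + 1; omega)
        (h1 i hi hm _ rfl)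
      have e : (⟨r + i + 1, by omega⟩ : Fin (r + r)).val - r = i + 1 := by
        change r + i + 1 - r = i + 1
        omega
      rw [e] at this
      exact this
    · have : i + 1 = r := by omega
      rw [this, firstL_full, firstR_full, Finset.sdiff_self, Finset.empty_union]
      exact hA
  · intro T hT
    exact absurd hT (by simp)
  · intro q hq
    exact absurd hq (by simp)
  · intro j hj
    rw [e0, e1]
    exact hcs j hj
  · rw [e0, e1]
    exact totV hP hA hA' (disj_B r)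
  · rw [e0, e1]
    exact totX hP hA hA' (disj_B r)
  · rw [e0, e1]
    exact hno

/-- the pairs of lengths of chains which together give orderings -/
def hs0 : List (ℕ × ℕ) := [(3, 3), (4, 2), (5, 1), (6, 0)]

/-- **Gabow's conjecture in rank seven**, from five refutations. -/
theorem gabow_seven {α : Type*} (M : Matroid α) (b b' : Fin 7 → α)
    (hb : Function.Injective b) (hb' : Function.Injective b')
    (hB : M.IsBase (Set.range b)) (hB' : M.IsBase (Set.range b'))
    (bad2 : ∀ c : Cx (Idx 7), c.toPar = ⟨7, 127, 55, hs0, lsk 2, [], []⟩ → False)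
    (bad1 : ∀ c : Cx (Idx 7), c.toPar = ⟨7, 127, 55, hs0, lsk 1, [], [2]⟩ → False)
    (bad0 : ∀ c : Cx (Idx 7), c.toPar = ⟨7, 127, 55, hs0, lsk 0, [], [1, 2]⟩ → False)
    (badA : ∀ c : Cx (Idx 7), c.toPar = ⟨7, 127, 55, hs0, [], [], [0, 1, 2]⟩ → False)
    (badB : ∀ c : Cx (Idx 7), c.toPar = ⟨7, 127, 51, (3, 2) :: hs0, [], [], [0, 1, 2]⟩ →
      False) :
    ∃ σ σ' : Equiv.Perm (Fin 7), ∀ i : Fin (7 + 7), M.IsBase (block (b ∘ σ) (b' ∘ σ') i) := by
  by_contra hcon
  have hA := base_B₀ (b' := b') hb hB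
  have hA' := base_B₁ (b := b) hb' hB'
  have hP := symExch_BP M (Sum.elim b b')
  have h0 : NoD hs0 (BP M (Sum.elim b b')) (B₀ 7) (B₁ 7) := by
    intro X hX X' hX' V hV V' hV' hXX hVV q hq h h'
    have hq2 : q.1 + q.2 = 6 := by
      simp only [hs0, List.mem_cons, List.not_mem_nil, or_false] at hq
      rcases hq with rfl | rfl | rfl | rfl <;> rfl
    obtain ⟨σ, σ', hσ⟩ := of_two (by omega) hb hb' hB hB' hX hX' hV hV' hXX hVV h h'
    exact hcon ⟨σ, σ', fun i => hσ i (by omega)⟩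
  have n2 : ¬ Cfg 2 (BP M (Sum.elim b b')) (B₀ 7) (B₁ 7) :=
    no_Cfg hP hA hA' (disj_B 7) (card_B₀ 7) (card_B₁ 7) hs0 [] h0
      (fun j hj => absurd hj (by simp)) 2 (by norm_num) (fun h => absurd h (by norm_num))
      (fun h => absurd h (by norm_num)) bad2
  have n1 : ¬ Cfg 1 (BP M (Sum.elim b b')) (B₀ 7) (B₁ 7) :=
    no_Cfg hP hA hA' (disj_B 7) (card_B₀ 7) (card_B₁ 7) hs0 [2] h0
      (fun j hj => by rw [List.mem_singleton.mp hj]; exact n2) 1 (by norm_num) (fun _ => n2)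
      (fun h => absurd h (by norm_num)) bad1
  have n0 : ¬ Cfg 0 (BP M (Sum.elim b b')) (B₀ 7) (B₁ 7) :=
    no_Cfg hP hA hA' (disj_B 7) (card_B₀ 7) (card_B₁ 7) hs0 [1, 2] h0
      (fun j hj => by
        simp only [List.mem_cons, List.not_mem_nil, or_false] at hj
        rcases hj with rfl | rfl
        · exact n1
        · exact n2) 0 (by norm_num) (fun _ => n2) (fun _ => n1) bad0
  have nn : ∀ j ∈ [0, 1, 2], ¬ Cfg j (BP M (Sum.elim b b')) (B₀ 7) (B₁ 7) := by
    intro j hj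
    simp only [List.mem_cons, List.not_mem_nil, or_false] at hj
    rcases hj with rfl | rfl | rfl
    · exact n0
    · exact n1
    · exact n2
  by_cases hA : ∃ X ⊆ B₀ 7, ∃ X' ⊆ B₀ 7, ∃ V ⊆ B₁ 7, ∃ V' ⊆ B₁ 7, Disjoint X X' ∧
      Disjoint V V' ∧ GCh (BP M (Sum.elim b b')) (B₀ 7) (B₁ 7) 3 X V ∧
        GCh (BP M (Sum.elim b b')) (B₀ 7) (B₁ 7) 2 X' V'
  · obtain ⟨X, hX, X', hX', V, hV, V', hV', hXX, hVV, h, h'⟩ := hA
    obtain ⟨σ, σ', hσ⟩ := refine_near M b b' hb hB hB' (fun n => n ≤ 3 ∨ 7 ≤ n + 2)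
      (of_two (k := 3) (l := 2) (by norm_num) hb hb' hB hB' hX hX' hV hV' hXX hVV h h')
    refine no_cx (by norm_num) hb hb' hB hB' 127 55 hs0 [0, 1, 2] σ σ' ?_ ?_ h0 nn badA
    · intro i hi _ j hj
      exact hσ j (Or.inl (by omega))
    · intro i hi hm j hj
      refine hσ j (Or.inr ?_)
      rw [hj]
      interval_cases i
      · simp
      · simp
      · simp
      · simp [Nat.testBit] at hm
      · simp
      · simp
      · simp [Nat.testBit] at hm
  · obtain ⟨σ, σ', hσ⟩ := start M (by norm_num) b b' hb hb' hB hB'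
    refine no_cx (by norm_num) hb hb' hB hB' 127 51 ((3, 2) :: hs0) [0, 1, 2] σ σ' ?_ ?_ ?_ nn
      badB
    · intro i hi _ j hj
      exact hσ j (Or.inl (by omega))
    · intro i hi hm j hj
      refine hσ j (Or.inr ?_)
      rw [hj]
      interval_cases i
      · simp
      · simp
      · simp [Nat.testBit] at hm
      · simp [Nat.testBit] at hm
      · simp
      · simp
      · simp [Nat.testBit] at hm
    · intro X hX X' hX' V hV V' hV' hXX hVV q hq h h'
      rcases List.mem_cons.mp hq with rfl | hq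
      · exact hA ⟨X, hX, X', hX', V, hV, V', hV', hXX, hVV, h, h'⟩
      · exact h0 X hX X' hX' V hV V' hV' hXX hVV q hq h h'

/-- **Gabow's conjecture in rank at most seven**, from five refutations. -/
theorem gabow_le_seven_of {α : Type*} (M : Matroid α) {r : ℕ} (hr : r ≤ 7) (b b' : Fin r → α)
    (hb : Function.Injective b) (hb' : Function.Injective b')
    (hB : M.IsBase (Set.range b)) (hB' : M.IsBase (Set.range b'))
    (bad2 : ∀ c : Cx (Idx 7), c.toPar = ⟨7, 127, 55, hs0, lsk 2, [], []⟩ → False)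
    (bad1 : ∀ c : Cx (Idx 7), c.toPar = ⟨7, 127, 55, hs0, lsk 1, [], [2]⟩ → False)
    (bad0 : ∀ c : Cx (Idx 7), c.toPar = ⟨7, 127, 55, hs0, lsk 0, [], [1, 2]⟩ → False)
    (badA : ∀ c : Cx (Idx 7), c.toPar = ⟨7, 127, 55, hs0, [], [], [0, 1, 2]⟩ → False)
    (badB : ∀ c : Cx (Idx 7), c.toPar = ⟨7, 127, 51, (3, 2) :: hs0, [], [], [0, 1, 2]⟩ →
      False) :
    ∃ σ σ' : Equiv.Perm (Fin r), ∀ i : Fin (r + r), M.IsBase (block (b ∘ σ) (b' ∘ σ') i) := by
  rcases Nat.lt_or_ge r 7 with h | h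
  · exact Pool.Agent.Gab6_h87.gabow_le_six M (by omega) b b' hb hb' hB hB'
  · obtain rfl : r = 7 := by omega
    exact gabow_seven M b b' hb hb' hB hB' bad2 bad1 bad0 badA badB

end Pool.Agent.Gab7b_h87
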